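import Pool.Agent.H23.RDD.Targets
import Pool.Agent.H24.RD.MAIN

set_option autoImplicit false

/-!
# Row CFS: finitely many elements of the big field lie in a level field
-/

namespace Pool.Agent.H23.RDD

open NumberField Height Finset Polynomial Pool.Agent.H24.RD

theorem pf_CFS : T_LVB → T_CFS := by
  classical
  intro hLVB Γ S S' hSS F' _ r g γ hγg hdec s
  have hγ0 : ∀ i, γ i ≠ 0 := by
    intro i h
    have h1 := hγg i
    rw [h] at h1
    exact (g i).ne_zero (by rw [← h1]; rfl)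
  have : Algebra.IsAlgebraic ℚ (AlgebraicClosure ℚ) := AlgebraicClosure.isAlgebraic ℚ
  have : Algebra.IsAlgebraic F' (AlgebraicClosure ℚ) := Algebra.IsAlgebraic.tower_top (K := ℚ) F'
  have hmono : ∀ N K N₁ K₁ : ℕ, 0 < N → 0 < K → N ∣ N₁ → K ∣ K₁ → K₁ ∣ N₁ → 0 < N₁ →
      Lv F' (AlgebraicClosure ℚ) γ N K ≤ Lv F' (AlgebraicClosure ℚ) γ N₁ K₁ := by
    intro N K N₁ K₁ hN hK h1 h2 h3 h4
    exact (hLVB F' (AlgebraicClosure ℚ) r γ hγ0 N K hN hK).2.2.2.2.2 N₁ K₁ h1 h2 h3 h4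
  induction s using Finset.induction_on with
  | empty =>
    intro _
    exact ⟨1, 1, one_pos, dvd_rfl, fun p hp h => absurd (Nat.dvd_one.mp h) hp.one_lt.ne',
      fun z hz => absurd hz (Finset.notMem_empty z)⟩
  | insert a s ha ih =>
    intro hs
    obtain ⟨N₁, K₁, h1, h2, h3, h4⟩ := ih fun z hz => hs z (Finset.mem_insert_of_mem hz)
    obtain ⟨N₂, K₂, h5, h6, h7, h8⟩ := main_mem hLVB Γ ⊥ S S' hSS F' bot_le r g γ hγg hdec a (by
      refine IntermediateField.adjoin.mono ℚ _ _ ?_ (hs a (Finset.mem_insert_self a s))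
      rintro z (hz | hz)
      · exact Or.inl (Or.inr hz)
      · exact Or.inr hz)
    have hK₁ := Nat.pos_of_dvd_of_pos h2 h1
    have hK₂ := Nat.pos_of_dvd_of_pos h6 h5
    have hN : 0 < Nat.lcm N₁ N₂ := Nat.lcm_pos h1 h5
    have hd : Nat.lcm K₁ K₂ ∣ Nat.lcm N₁ N₂ :=
      Nat.lcm_dvd (h2.trans (Nat.dvd_lcm_left _ _)) (h6.trans (Nat.dvd_lcm_right _ _))
    refine ⟨Nat.lcm N₁ N₂, Nat.lcm K₁ K₂, hN, hd, ?_, ?_⟩
    · intro p hp h
      have h9 : p ∣ K₁ * K₂ := h.trans (Nat.lcm_dvd_mul _ _)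
      rcases hp.dvd_mul.mp h9 with h10 | h10
      · exact h3 p hp h10
      · exact h7 p hp h10
    · intro z hz
      rcases Finset.mem_insert.mp hz with rfl | hz
      · exact hmono _ _ _ _ h5 hK₂ (Nat.dvd_lcm_right _ _) (Nat.dvd_lcm_right _ _) hd hN h8
      · exact hmono _ _ _ _ h1 hK₁ (Nat.dvd_lcm_left _ _) (Nat.dvd_lcm_left _ _) hd hN (h4 z hz)

end Pool.Agent.H23.RDD
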