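import Pool.Agent.H23.RDD.Targets
import Pool.Agent.H24.RD.MAIN

set_option autoImplicit false

/-!
# Row MAI: the result from the case of independent generators
-/

namespace Pool.Agent.H23.RDD

open NumberField Height Finset Polynomial Pool.Agent.H24.RD

theorem pf_MAIND : T_MBD → T_BAS → T_LVB → T_CFS → T_MAIND := by
  classical
  intro hMBD hBAS hLVB hCFS Γ hΓ S D
  obtain ⟨r, g, hg, hind, hdec⟩ := hBAS Γ hΓ
  set F' : IntermediateField ℚ (AlgebraicClosure ℚ) :=
    IntermediateField.adjoin ℚ (Set.range fun i => (g i : AlgebraicClosure ℚ)) with hF'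
  have : Algebra.IsAlgebraic ℚ (AlgebraicClosure ℚ) := AlgebraicClosure.isAlgebraic ℚ
  have h2 : FiniteDimensional ℚ F' :=
    IntermediateField.finiteDimensional_adjoin fun x _ =>
      (Algebra.IsAlgebraic.isAlgebraic x).isIntegral
  have : NumberField F' := { to_charZero := inferInstance, to_finiteDimensional := h2 }
  have hmem : ∀ i, (g i : AlgebraicClosure ℚ) ∈ F' := fun i =>
    IntermediateField.subset_adjoin _ _ ⟨i, rfl⟩
  let γ : Fin r → F' := fun i => ⟨g i, hmem i⟩
  have hγg : ∀ i, ((γ i : F') : AlgebraicClosure ℚ) = g i := fun i => rfl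
  have hγ0 : ∀ i, γ i ≠ 0 := by
    intro i h
    have h1 := hγg i
    rw [h] at h1
    exact (g i).ne_zero (by rw [← h1]; rfl)
  have hMI : MInd F' γ := by
    refine ⟨hγ0, fun x hx => hind x ?_⟩
    apply Units.ext
    have h3 := congrArg (algebraMap F' (AlgebraicClosure ℚ)) hx
    rw [map_prod, map_one] at h3
    push_cast
    rw [← h3]
    refine Finset.prod_congr rfl fun i _ => ?_
    rw [map_zpow₀]
    rfl
  have : Algebra.IsAlgebraic F' (AlgebraicClosure ℚ) := Algebra.IsAlgebraic.tower_top (K := ℚ) F'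
  set S' : Finset ℕ := insert 2 (S.filter Nat.Prime) with hS'
  have hSp : ∀ p ∈ S', p.Prime := by
    intro p hp
    rcases Finset.mem_insert.mp hp with h | h
    · rw [h]
      exact Nat.prime_two
    · exact (Finset.mem_filter.mp h).2
  obtain ⟨c, hc, hmain⟩ := hMBD F' (AlgebraicClosure ℚ) r γ hMI S' hSp ⟨2, by simp [hS']⟩
    (max D 1) (lt_max_of_lt_right one_pos)
  refine ⟨c, hc, ?_⟩
  intro L hL β hβD z hz hβz hnot
  have hβ0 : β ≠ 0 := left_ne_zero_of_mul hβz
  have : Algebra.IsAlgebraic L (AlgebraicClosure ℚ) := Algebra.IsAlgebraic.tower_top (K := ℚ) L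
  have hint : IsIntegral L β := (Algebra.IsAlgebraic.isAlgebraic β).isIntegral
  -- the coefficients of the minimal polynomial
  set P : L[X] := minpoly L β with hP
  have hP0 : P ≠ 0 := minpoly.ne_zero hint
  have hdeg : P.natDegree ≤ max D 1 := by
    have h3 := IntermediateField.adjoin.finrank hint
    rw [hP, ← h3]
    exact hβD.trans (le_max_left _ _)
  obtain ⟨N, K, hN, hKN, hKS, hco⟩ := hCFS Γ S S'
    (fun p hp hpp => Finset.mem_insert_of_mem (Finset.mem_filter.mpr ⟨hp, hpp⟩)) F' r g γ hγg hdec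
    (P.support.image fun k => (P.coeff k : AlgebraicClosure ℚ)) (by
      intro w hw
      obtain ⟨k, -, rfl⟩ := Finset.mem_image.mp hw
      rw [← hL]
      exact (P.coeff k).2)
  refine hmain N K hN hKN hKS β z hβ0 ?_ ?_ ?_
  · refine ⟨(P.aroots (AlgebraicClosure ℚ)).toFinset, ?_, ?_⟩
    · refine (Multiset.toFinset_card_le _).trans (le_trans ?_ hdeg)
      rw [Polynomial.aroots_def]
      exact (Polynomial.card_roots' _).trans Polynomial.natDegree_map_le
    · intro σ hσ
      rw [Multiset.mem_toFinset, Polynomial.mem_aroots]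
      refine ⟨hP0, ?_⟩
      have h4 : aeval β P = 0 := minpoly.aeval L β
      rw [Polynomial.aeval_eq_sum_range] at h4 ⊢
      have h5 := congrArg σ h4
      rw [map_zero, map_sum] at h5
      rw [← h5]
      refine Finset.sum_congr rfl fun k _ => ?_
      rw [Algebra.smul_def, Algebra.smul_def, map_mul, map_pow]
      congr 1
      change ((P.coeff k : L) : AlgebraicClosure ℚ) = σ ((P.coeff k : L) : AlgebraicClosure ℚ)
      by_cases hk : P.coeff k = 0
      · rw [hk]
        simp
      · exact (hσ _ (hco _ (Finset.mem_image.mpr ⟨k, Polynomial.mem_support_iff.mpr hk, rfl⟩))).symm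
  · exact (main_dv Γ F' r g hg γ hγg hdec z).mpr hz
  · intro h
    exact hnot ((main_dv Γ F' r g hg γ hγg hdec _).mp h)

end Pool.Agent.H23.RDD
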