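import Pool.Agent.H24.RD.All
import Pool.Agent.H23.RDD.CFS
import Pool.Agent.H23.RDD.MAI
import Pool.Agent.H8.RDD.CHR
import Pool.Agent.H5.RDD.DP
import Pool.Agent.H12.RDD.DS
import Pool.Agent.H19.RDD.FIN
import Pool.Agent.H19.RDD.LVC
import Pool.Agent.H32.RDD.FP
import Pool.Agent.H32.RDD.FT
import Pool.Agent.H32.RDD.MON
import Pool.Agent.H70.RDD.FRD
import Pool.Agent.H70.RDD.STCC
import Pool.Agent.H10.RDD.KEYD
import Pool.Agent.H1.RDD.KP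
import Pool.Agent.H1.RDD.STC
import Pool.Agent.H67.RDD.LA
import Pool.Agent.H67.RDD.WE
import Pool.Agent.H79.RDD.LB
import Pool.Agent.H79.RDD.MBD
import Pool.Agent.H99.RDD.RED
import Pool.Agent.H11.RDD.RS
import Pool.Agent.H11.RDD.STK
import Pool.Agent.H42.RDD.SK1
import Pool.Agent.H42.RDD.SK2
import Pool.Agent.H94.RDD.SKP
import Pool.Agent.H13.RDD.TPF

set_option autoImplicit false

/-!
# MP_c65535_nt, bounded degree: assembly
-/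

namespace Pool.Agent.H23.RDD

open Pool.Agent.H24.RD

theorem aWE : T_WE := Pool.Agent.H67.RDD.pf_WE aGEN aLI aWT aVC
theorem aRS : T_RS := Pool.Agent.H11.RDD.pf_RS
theorem aLA : T_LA := Pool.Agent.H67.RDD.pf_LA
theorem aLB : T_LB := Pool.Agent.H79.RDD.pf_LB
theorem aKP : T_KP := Pool.Agent.H1.RDD.pf_KP aPOW aPF aRS aLA
theorem aFP : T_FP := Pool.Agent.H32.RDD.pf_FP aPOW aPF aFR1 aRS aLB
theorem aFT : T_FT := Pool.Agent.H32.RDD.pf_FT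
theorem aMON : T_MON := Pool.Agent.H32.RDD.pf_MON aLVB
theorem aKEYD : T_KEYD := Pool.Agent.H10.RDD.pf_KEYD aHA aHB aLVB aWE aKP aFT
theorem aSTCC : T_STCC := Pool.Agent.H70.RDD.pf_STCC
theorem aSTCD : T_STCD := Pool.Agent.H1.RDD.pf_STCD aLVB aMON aKEYD aSTCC
theorem aSKP : T_SKP := Pool.Agent.H94.RDD.pf_SKP aHB aLVB aVC aKEYD
theorem aSK1D : T_SK1D := Pool.Agent.H42.RDD.pf_SK1D aLVB aCM aSKP
theorem aCHR : T_CHR := Pool.Agent.H8.RDD.pf_CHR aEXT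
theorem aTPF : T_TPF := Pool.Agent.H13.RDD.pf_TPF aLVB
theorem aSK2D : T_SK2D := Pool.Agent.H42.RDD.pf_SK2D aLVB aCHR aTPF
theorem aSTKD : T_STKD := Pool.Agent.H11.RDD.pf_STKD aSK1D aTOP aSK2D
theorem aDPD : T_DPD := Pool.Agent.H5.RDD.pf_DPD aMON aSTCD aSTKD
theorem aDSD : T_DSD := Pool.Agent.H12.RDD.pf_DSD aMON aDPD
theorem aFRD : T_FRD := Pool.Agent.H70.RDD.pf_FRD aHA aHB aFT aFP
theorem aLVC : T_LVC := Pool.Agent.H19.RDD.pf_LVC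
theorem aFIND : T_FIND := Pool.Agent.H19.RDD.pf_FIND aHB aLVB aLVC aFRD aDIR
theorem aRED : T_RED := Pool.Agent.H99.RDD.pf_RED aLVB aMON
theorem aMBD : T_MBD := Pool.Agent.H79.RDD.pf_MBD aHB aRED aDSD aFIND
theorem aCFS : T_CFS := pf_CFS aLVB
theorem aMAIND : T_MAIND := pf_MAIND aMBD aBAS aLVB aCFS

end Pool.Agent.H23.RDD
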