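import Pool.Agent.H24.RD.Targets

set_option autoImplicit false

/-!
# MP_c65535_nt, bounded degree: definitions and targets

The degree one form of Rémond's conjecture for radicals at finitely many primes
(`Pool.Agent.H24.RD`) is extended to all numbers of degree at most `d` over the field of radicals.
-/

namespace Pool.Agent.H23.RDD

open NumberField Height Finset Polynomial Pool.Agent.H24.RD

/-- `β` has at most `d` conjugates over `E`. -/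
def Cj (F Ω : Type) [Field F] [Field Ω] [Algebra F Ω] (E : IntermediateField F Ω) (d : ℕ)
    (β : Ω) : Prop :=
  ∃ s : Finset Ω, s.card ≤ d ∧ ∀ σ : Ω ≃ₐ[F] Ω, (∀ z ∈ E, σ z = z) → σ β ∈ s

/-- A conjugate of `β` over `E` which is `β` times a root of unity is `β`. -/
def Red (F Ω : Type) [Field F] [Field Ω] [Algebra F Ω] (E : IntermediateField F Ω)
    (β : Ω) : Prop :=
  ∀ σ : Ω ≃ₐ[F] Ω, (∀ z ∈ E, σ z = z) → ∀ k : ℕ, 0 < k → (σ β) ^ k = β ^ k → σ β = β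

/-- `α` is a product of a reduced number with at most `d` conjugates over the level field and of an
element of the division group. -/
def RepD (F Ω : Type) [Field F] [Field Ω] [Algebra F Ω] {r : ℕ} (γ : Fin r → F)
    (N K d : ℕ) (α : Ω) : Prop :=
  ∃ β : Ω, β ≠ 0 ∧ Cj F Ω (Lv F Ω γ N K) d β ∧ Red F Ω (Lv F Ω γ N K) β ∧
    ∃ g ∈ Dv F Ω γ, α = β * g

/-- The top Kummer group. -/
def InTop (F M : Type) [Field F] [Field M] [Algebra F M] {r : ℕ} (γ : Fin r → F) (p m N K' : ℕ)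
    (h : M ≃ₐ[F] M) : Prop :=
  h ∈ AA F M γ N K' ∧ ∀ (y : M) (i : Fin r), y ^ (p ^ (m - 1)) = algebraMap F M (γ i) → h y = y

/-! ## Local lemmas -/

/-- RS: restriction of finite places. -/
def T_RS : Prop := ∀ (M M' : Type) [Field M] [NumberField M] [Field M'] [NumberField M']
  [Algebra M M'] (w : FinitePlace M'), ∃ (v : FinitePlace M) (k : ℝ), 0 < k ∧
  ∀ x : M, w.1 (algebraMap M M' x) = (v.1 x) ^ k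

/-- LA: roots of two close polynomials. -/
def T_LA : Prop := ∀ (M : Type) [Field M] (w : AbsoluteValue M ℝ), IsNonarchimedean w →
  ∀ (d : ℕ) (ε : ℝ), 0 < d → 0 < ε → ε < 1 → ∀ (ι : Type) [Fintype ι], Fintype.card ι ≤ d →
  ∀ b : ι → M, (∀ j, b j ≠ 0) → ∀ (P : M[X]) (z : M), P.eval z = 0 →
  (∀ k : ℕ, w (P.coeff k - (∏ j, (X - C (b j))).coeff k) ≤ ε * w ((∏ j, (X - C (b j))).coeff k)) →
  ∃ j, w (z / b j - 1) ≤ ε ^ (1 / (d : ℝ)) * max (w (z / b j)) 1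

/-- LB: a Frobenius congruence for the coefficients gives one for a root. -/
def T_LB : Prop := ∀ (M M' : Type) [Field M] [Field M'] [Algebra M M'] (w : AbsoluteValue M' ℝ),
  IsNonarchimedean w → ∀ (ℓ e : ℕ), ℓ.Prime → ∀ (σ : M →+* M) (ε : ℝ), 0 < ε → ε < 1 →
  w (ℓ : M') ≤ ε →
  (∀ x : M, w (algebraMap M M' (σ x) - algebraMap M M' x ^ (ℓ ^ e)) ≤
    ε * (max (w (algebraMap M M' (σ x))) 1 * max (w (algebraMap M M' x ^ (ℓ ^ e))) 1)) →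
  ∀ d : ℕ, 0 < d → ∀ f : M[X], f.Monic → ∀ β : M', aeval β f = 0 →
  ∀ (ι : Type) [Fintype ι], Fintype.card ι ≤ d → ∀ z : ι → M',
  (f.map σ).map (algebraMap M M') = ∏ j, (X - C (z j)) →
  ∃ j, w (β ^ (ℓ ^ e) - z j) ≤
    ε ^ (1 / (d : ℝ)) * (max (w (β ^ (ℓ ^ e))) 1 * max (w (z j)) 1)

/-! ## The product formula steps -/

/-- WE: existence of wild elements. -/
def T_WE : Prop := ∀ (F : Type) [Field F] [NumberField F] (p : ℕ), p.Prime → ∀ (r : ℕ)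
  (γ : Fin r → F), (∀ i, γ i ≠ 0) → ∃ C : ℕ, ∀ R : ℕ, ∃ T n0 : ℕ, 1 ≤ T ∧
  ∀ (M : Type) [Field M] [NumberField M] [Algebra F M] [FiniteDimensional F M] [IsGalois F M]
  (n m n1 n2 N' K' : ℕ), Lev C R n0 p n m n1 n2 N' K' →
  (∃ ζ : M, IsPrimitiveRoot ζ (p ^ n * N')) →
  (∀ i, ∃ θ : M, θ ^ (p ^ m * K') = algebraMap F M (γ i)) →
  IntermediateField.adjoin F
    {z : M | z ^ (p ^ n * N') = 1 ∨ ∃ i, z ^ (p ^ m * K') = algebraMap F M (γ i)} = ⊤ →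
  Nat.card (VV F M γ p n1 K') ≤ T ∧ ∀ v : FinitePlace M, v.1 (p : M) < 1 →
    ∃ t ∈ VV F M γ p n1 K', (∃ ξ : M, ξ ^ (p ^ n2) = 1 ∧ t ξ ≠ ξ) ∧
      ∀ x : M, x ≠ 0 → v.1 (t x / x - 1) ≤ v.1 (p : M) ^ (1 / ((2 * T : ℕ) : ℝ))

/-- KP: the product formula step at `p`. -/
def T_KP : Prop := ∀ (E M : Type) [Field E] [NumberField E] [Field M] [NumberField M] [Algebra E M]
  (p : ℕ), p.Prime → ∀ T d : ℕ, 1 ≤ T → 0 < d → ∀ (S : Type) [Fintype S], Fintype.card S ≤ T →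
  ∀ t : S → (E ≃+* E), (∀ v : FinitePlace E, v.1 (p : E) < 1 →
    ∃ s : S, ∀ x : E, x ≠ 0 → v.1 (t s x / x - 1) ≤ v.1 (p : E) ^ (1 / ((2 * T : ℕ) : ℝ))) →
  ∀ (f : E[X]) (ι : Type) [Fintype ι], Fintype.card ι ≤ d → ∀ b : ι → M, (∀ j, b j ≠ 0) →
  f.map (algebraMap E M) = ∏ j, (X - C (b j)) → ∀ z : S → M,
  (∀ s, aeval (z s) (f.map (t s : E →+* E)) = 0) →
  (∃ s j, (z s) ^ (p ^ (3 * T * d + 2)) = (b j) ^ (p ^ (3 * T * d + 2))) ∨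
    (Module.finrank ℚ M : ℝ) * Real.log 2 ≤
      ∑ s, ∑ j, logHeight₁ ((z s / b j) ^ (p ^ (3 * T * d + 2)))

/-- FP: the product formula step with a Frobenius substitution. -/
def T_FP : Prop := ∀ (K M M' : Type) [Field K] [NumberField K] [Field M] [NumberField M]
  [Algebra K M] [Field M'] [NumberField M'] [Algebra M M'] (ℓ : ℕ), ℓ.Prime → ∀ d : ℕ, 0 < d →
  ∀ N' : ℕ, ¬ ℓ ∣ N' → ∀ ζ : M, IsPrimitiveRoot ζ N' → IntermediateField.adjoin K {ζ} = ⊤ →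
  ∃ σ : M ≃ₐ[K] M, ∀ f : M[X], f.Monic → ∀ β : M', aeval β f = 0 →
  ∀ (ι : Type) [Fintype ι], Fintype.card ι ≤ d → ∀ z : ι → M',
  (f.map (σ : M →+* M)).map (algebraMap M M') = ∏ j, (X - C (z j)) →
  (∃ j, (β ^ (ℓ ^ (Module.finrank ℚ K).factorial)) ^ (ℓ ^ (Module.finrank ℚ K * d + d + 1)) =
    (z j) ^ (ℓ ^ (Module.finrank ℚ K * d + d + 1))) ∨
    (Module.finrank ℚ M' : ℝ) * Real.log 2 ≤
      ∑ j, (logHeight₁ ((β ^ (ℓ ^ (Module.finrank ℚ K).factorial)) ^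
          (ℓ ^ (Module.finrank ℚ K * d + d + 1))) +
        logHeight₁ ((z j) ^ (ℓ ^ (Module.finrank ℚ K * d + d + 1))))

/-- FT: the field generated by the conjugates. -/
def T_FT : Prop := ∀ (F Ω : Type) [Field F] [CharZero F] [Field Ω] [Algebra F Ω] [IsAlgClosed Ω]
  [Algebra.IsAlgebraic F Ω] (E : IntermediateField F Ω), FiniteDimensional F E →
  ∀ (d : ℕ) (β : Ω), β ≠ 0 → Cj F Ω E d β →
  ∃ (M : IntermediateField F Ω) (f : E[X]) (s : Finset Ω), FiniteDimensional F M ∧ E ≤ M ∧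
    s.card ≤ d ∧ β ∈ s ∧
    (∀ x ∈ s, x ∈ M ∧ x ≠ 0 ∧ ∃ σ : Ω ≃ₐ[F] Ω, (∀ z ∈ E, σ z = z) ∧ σ β = x) ∧
    f.Monic ∧ f.map (algebraMap E Ω) = ∏ x ∈ s, (X - C x) ∧
    ∀ (τ : Ω ≃ₐ[F] Ω), ∀ x ∈ M, τ x ∈ M

/-- MON: level fields may be enlarged. -/
def T_MON : Prop := ∀ (F Ω : Type) [Field F] [NumberField F] [Field Ω] [Algebra F Ω]
  [IsAlgClosed Ω] [Algebra.IsAlgebraic F Ω] (r : ℕ) (γ : Fin r → F), (∀ i, γ i ≠ 0) →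
  ∀ N K N₁ K₁ d : ℕ, 0 < N → 0 < K → N ∣ N₁ → K ∣ K₁ → K₁ ∣ N₁ → 0 < N₁ → ∀ α : Ω,
  (∀ k, Cj F Ω (Lv F Ω γ N K) k α → Cj F Ω (Lv F Ω γ N₁ K₁) k α) ∧
  (RepD F Ω γ N K d α → RepD F Ω γ N₁ K₁ d α)

/-! ## The key statement -/

/-- KEYD: an element of small height is multiplied by a root of unity by some extension of an
element of `V`. -/
def T_KEYD : Prop := ∀ (F Ω : Type) [Field F] [NumberField F] [Field Ω] [CharZero Ω] [Algebra F Ω]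
  [IsAlgClosed Ω] [Algebra.IsAlgebraic F Ω] (p : ℕ), p.Prime → ∀ (r : ℕ) (γ : Fin r → F),
  (∀ i, γ i ≠ 0) → ∃ C : ℕ, ∀ R d : ℕ, 0 < d → ∃ (δ : ℝ) (lam n0 : ℕ), 0 < δ ∧
  ∀ n m n1 n2 N' K' : ℕ, Lev C R n0 p n m n1 n2 N' K' →
  ∀ β : Ω, β ≠ 0 → Cj F Ω (Lv F Ω γ (p ^ n * N') (p ^ m * K')) d β → ∀ g : Ω, g ≠ 0 →
  (∃ (j : ℕ) (a : F), 0 < j ∧ g ^ j = algebraMap F Ω a) →
  absLogHeight₁ (β * g) < δ →
  ∃ (τ : Ω ≃ₐ[F] Ω)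
    (t : Lv F Ω γ (p ^ n * N') (p ^ m * K') ≃ₐ[F] Lv F Ω γ (p ^ n * N') (p ^ m * K')),
    t ∈ VV F (Lv F Ω γ (p ^ n * N') (p ^ m * K')) γ p n1 K' ∧
    (∃ ξ : Lv F Ω γ (p ^ n * N') (p ^ m * K'), ξ ^ (p ^ n2) = 1 ∧ t ξ ≠ ξ) ∧
    (∀ y : Lv F Ω γ (p ^ n * N') (p ^ m * K'), τ (y : Ω) = (t y : Ω)) ∧
    (τ β) ^ (p ^ lam) = β ^ (p ^ lam)

/-! ## The descent -/

/-- STCC: the algebraic part of the cyclotomic step. -/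
def T_STCC : Prop := ∀ (F Ω : Type) [Field F] [CharZero F] [Field Ω] [CharZero Ω] [Algebra F Ω]
  [IsAlgClosed Ω] [Algebra.IsAlgebraic F Ω] (p : ℕ), p.Prime → ∀ (r : ℕ) (γ : Fin r → F),
  (∀ i, γ i ≠ 0) → ∀ n m n1 R lam N' K' : ℕ, m ≤ n1 → 1 ≤ n1 → n1 < n → n ≤ n1 + R → R ≤ n1 →
  lam ≤ n1 → ¬ p ∣ N' → K' ∣ N' → ∀ τ : Ω ≃ₐ[F] Ω,
  (∀ y : Ω, (y ^ N' = 1 ∨ y ^ (p ^ n1) = 1 ∨ (∃ i, y ^ (p ^ n1) = algebraMap F Ω (γ i)) ∨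
    (∃ i, y ^ K' = algebraMap F Ω (γ i))) → τ y = y) →
  ∀ ζ : Ω, IsPrimitiveRoot ζ (p ^ n) → τ ζ ≠ ζ → ∀ (d : ℕ) (β : Ω), β ≠ 0 →
  Cj F Ω (Lv F Ω γ (p ^ n * N') (p ^ m * K')) d β →
  Red F Ω (Lv F Ω γ (p ^ n * N') (p ^ m * K')) β → (τ β) ^ (p ^ lam) = β ^ (p ^ lam) →
  ∃ i : ℕ, Cj F Ω (Lv F Ω γ (p ^ (n - 1) * N') (p ^ m * K')) d (β / ζ ^ i) ∧
    Red F Ω (Lv F Ω γ (p ^ (n - 1) * N') (p ^ m * K')) (β / ζ ^ i)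

/-- STCD: the cyclotomic step. -/
def T_STCD : Prop := ∀ (F Ω : Type) [Field F] [NumberField F] [Field Ω] [CharZero Ω] [Algebra F Ω]
  [IsAlgClosed Ω] [Algebra.IsAlgebraic F Ω] (p : ℕ), p.Prime → ∀ (r : ℕ) (γ : Fin r → F),
  (∀ i, γ i ≠ 0) → ∀ d : ℕ, 0 < d → ∃ (R n0 : ℕ) (δ : ℝ), 0 < δ ∧ ∀ n m N' K' : ℕ, n0 ≤ n →
  m + R ≤ n → ¬ p ∣ N' → K' ∣ N' → ∀ α : Ω, RepD F Ω γ (p ^ n * N') (p ^ m * K') d α →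
  absLogHeight₁ α < δ → RepD F Ω γ (p ^ (n - 1) * N') (p ^ m * K') d α

/-- SKP: one element for `β` and a conjugate of `β`. -/
def T_SKP : Prop := ∀ (F Ω : Type) [Field F] [NumberField F] [Field Ω] [CharZero Ω] [Algebra F Ω]
  [IsAlgClosed Ω] [Algebra.IsAlgebraic F Ω] (p : ℕ), p.Prime → ∀ (r : ℕ) (γ : Fin r → F),
  (∀ i, γ i ≠ 0) → ∃ C : ℕ, ∀ R d : ℕ, 0 < d → ∃ (δ : ℝ) (n0 Q : ℕ), 0 < δ ∧ 0 < Q ∧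
  ∀ n m n1 n2 N' K' : ℕ, Lev C R n0 p n m n1 n2 N' K' →
  ∀ β : Ω, β ≠ 0 → Cj F Ω (Lv F Ω γ (p ^ n * N') (p ^ m * K')) d β → ∀ g : Ω, g ≠ 0 →
  (∃ (j : ℕ) (a : F), 0 < j ∧ g ^ j = algebraMap F Ω a) →
  absLogHeight₁ (β * g) < δ → ∀ κ : Ω ≃ₐ[F] Ω,
  ∃ (τ : Ω ≃ₐ[F] Ω)
    (t : Lv F Ω γ (p ^ n * N') (p ^ m * K') ≃ₐ[F] Lv F Ω γ (p ^ n * N') (p ^ m * K')),
    t ∈ VV F (Lv F Ω γ (p ^ n * N') (p ^ m * K')) γ p n1 K' ∧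
    (∃ ξ : Lv F Ω γ (p ^ n * N') (p ^ m * K'), ξ ^ (p ^ n2) = 1 ∧ t ξ ≠ ξ) ∧
    (∀ y : Lv F Ω γ (p ^ n * N') (p ^ m * K'), τ (y : Ω) = (t y : Ω)) ∧
    (τ β) ^ Q = β ^ Q ∧ (τ (κ β)) ^ Q = (κ β) ^ Q

/-- SK1D: the Kummer group acts through roots of unity. -/
def T_SK1D : Prop := ∀ (F Ω : Type) [Field F] [NumberField F] [Field Ω] [CharZero Ω] [Algebra F Ω]
  [IsAlgClosed Ω] [Algebra.IsAlgebraic F Ω] (p : ℕ), p.Prime → ∀ (r : ℕ) (γ : Fin r → F),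
  (∀ i, γ i ≠ 0) → ∃ C : ℕ, ∀ R d : ℕ, 0 < d → ∃ (δ : ℝ) (n0 Q : ℕ), 0 < δ ∧ 0 < Q ∧
  ∀ n m n1 n2 N' K' : ℕ, Lev C R n0 p n m n1 n2 N' K' → 1 ≤ n2 →
  ∀ β : Ω, β ≠ 0 → Cj F Ω (Lv F Ω γ (p ^ n * N') (p ^ m * K')) d β → ∀ g : Ω, g ≠ 0 →
  (∃ (j : ℕ) (a : F), 0 < j ∧ g ^ j = algebraMap F Ω a) →
  absLogHeight₁ (β * g) < δ →
  ∀ h ∈ AA F (Lv F Ω γ (p ^ n * N') (p ^ m * K')) γ (p ^ n * N') K',
    ∃ η : Ω ≃ₐ[F] Ω, (∀ y : Lv F Ω γ (p ^ n * N') (p ^ m * K'),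
      η (y : Ω) = ((h ^ (p ^ (n2 - 1))) y : Ω)) ∧ (η β) ^ Q = β ^ Q

/-- CHR: characters of the top Kummer group. -/
def T_CHR : Prop := ∀ (F M : Type) [Field F] [Field M] [Algebra F M] [FiniteDimensional F M]
  [IsGalois F M] (p : ℕ), p.Prime → ∀ (r : ℕ) (γ : Fin r → F), (∀ i, γ i ≠ 0) →
  ∀ n m N' K' : ℕ, 1 ≤ m → m ≤ n → ¬ p ∣ N' → K' ∣ N' →
  (∃ ζ : M, IsPrimitiveRoot ζ (p ^ n * N')) →
  (∀ i, ∃ θ : M, θ ^ (p ^ m * K') = algebraMap F M (γ i)) →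
  IntermediateField.adjoin F
    {z : M | z ^ (p ^ n * N') = 1 ∨ ∃ i, z ^ (p ^ m * K') = algebraMap F M (γ i)} = ⊤ →
  (∀ h : M ≃ₐ[F] M, InTop F M γ p m (p ^ n * N') K' h → h ^ p = 1) ∧
  ∀ χ : (M ≃ₐ[F] M) → M, (∀ h h' : M ≃ₐ[F] M, InTop F M γ p m (p ^ n * N') K' h →
      InTop F M γ p m (p ^ n * N') K' h' → χ (h * h') = χ h * χ h') →
    (∀ h : M ≃ₐ[F] M, InTop F M γ p m (p ^ n * N') K' h → (χ h) ^ p = 1) →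
    ∃ (x : Fin r → ℕ) (θ : Fin r → M), (∀ i, θ i ^ (p ^ m) = algebraMap F M (γ i)) ∧
      ∀ h : M ≃ₐ[F] M, InTop F M γ p m (p ^ n * N') K' h → χ h = ∏ i, (h (θ i) / θ i) ^ x i

/-- TPF: automorphisms which fix the lower level field restrict to the top Kummer group. -/
def T_TPF : Prop := ∀ (F Ω : Type) [Field F] [NumberField F] [Field Ω] [Algebra F Ω]
  [IsAlgClosed Ω] [Algebra.IsAlgebraic F Ω] (p : ℕ), p.Prime → ∀ (r : ℕ) (γ : Fin r → F),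
  (∀ i, γ i ≠ 0) → ∀ n m N' K' : ℕ, 1 ≤ m → m ≤ n → ¬ p ∣ N' → K' ∣ N' → ∀ σ : Ω ≃ₐ[F] Ω,
  (∀ z ∈ Lv F Ω γ (p ^ n * N') (p ^ (m - 1) * K'), σ z = z) →
  ∃ h : Lv F Ω γ (p ^ n * N') (p ^ m * K') ≃ₐ[F] Lv F Ω γ (p ^ n * N') (p ^ m * K'),
    InTop F (Lv F Ω γ (p ^ n * N') (p ^ m * K')) γ p m (p ^ n * N') K' h ∧
    ∀ y : Lv F Ω γ (p ^ n * N') (p ^ m * K'), σ (y : Ω) = (h y : Ω)

/-- SK2D: correction of an element on which the top Kummer group acts through roots of unity. -/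
def T_SK2D : Prop := ∀ (F Ω : Type) [Field F] [NumberField F] [Field Ω] [CharZero Ω] [Algebra F Ω]
  [IsAlgClosed Ω] [Algebra.IsAlgebraic F Ω] (p : ℕ), p.Prime → ∀ (r : ℕ) (γ : Fin r → F),
  (∀ i, γ i ≠ 0) → ∀ n m N' K' Q d : ℕ, 1 ≤ m → m ≤ n → ¬ p ∣ N' → K' ∣ N' → 0 < Q →
  Q ∣ p ^ n * N' → ∀ β : Ω, β ≠ 0 → Cj F Ω (Lv F Ω γ (p ^ n * N') (p ^ m * K')) d β →
  Red F Ω (Lv F Ω γ (p ^ n * N') (p ^ m * K')) β →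
  (∀ h : Lv F Ω γ (p ^ n * N') (p ^ m * K') ≃ₐ[F] Lv F Ω γ (p ^ n * N') (p ^ m * K'),
    InTop F (Lv F Ω γ (p ^ n * N') (p ^ m * K')) γ p m (p ^ n * N') K' h →
    ∃ η : Ω ≃ₐ[F] Ω, (∀ y : Lv F Ω γ (p ^ n * N') (p ^ m * K'), η (y : Ω) = (h y : Ω)) ∧
      (η β) ^ Q = β ^ Q) →
  RepD F Ω γ (p ^ n * N') (p ^ (m - 1) * K') d β

/-- STKD: the Kummer step. -/
def T_STKD : Prop := ∀ (F Ω : Type) [Field F] [NumberField F] [Field Ω] [CharZero Ω] [Algebra F Ω]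
  [IsAlgClosed Ω] [Algebra.IsAlgebraic F Ω] (p : ℕ), p.Prime → ∀ (r : ℕ) (γ : Fin r → F),
  MInd F γ → ∀ R d : ℕ, 0 < d → ∃ (m0 Q : ℕ) (δ : ℝ), 0 < δ ∧ ¬ p ∣ Q ∧ ∀ n m N' K' : ℕ, m0 ≤ m →
  m ≤ n → n ≤ m + R → ¬ p ∣ N' → Q ∣ N' → K' ∣ N' → ∀ α : Ω,
  RepD F Ω γ (p ^ n * N') (p ^ m * K') d α → absLogHeight₁ α < δ →
  RepD F Ω γ (p ^ n * N') (p ^ (m - 1) * K') d α

/-- DPD: the descent at one prime. -/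
def T_DPD : Prop := ∀ (F Ω : Type) [Field F] [NumberField F] [Field Ω] [CharZero Ω] [Algebra F Ω]
  [IsAlgClosed Ω] [Algebra.IsAlgebraic F Ω] (p : ℕ), p.Prime → ∀ (r : ℕ) (γ : Fin r → F),
  MInd F γ → ∀ d : ℕ, 0 < d → ∃ (k Q : ℕ) (δ : ℝ), 0 < δ ∧ ¬ p ∣ Q ∧ ∀ n m N' K' : ℕ, m ≤ n →
  ¬ p ∣ N' → Q ∣ N' → K' ∣ N' → ∀ α : Ω, RepD F Ω γ (p ^ n * N') (p ^ m * K') d α →
  absLogHeight₁ α < δ → RepD F Ω γ (p ^ k * N') (p ^ k * K') d α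

/-- DSD: the descent at finitely many primes. -/
def T_DSD : Prop := ∀ (F Ω : Type) [Field F] [NumberField F] [Field Ω] [CharZero Ω] [Algebra F Ω]
  [IsAlgClosed Ω] [Algebra.IsAlgebraic F Ω] (r : ℕ) (γ : Fin r → F), MInd F γ →
  ∀ S : Finset ℕ, (∀ p ∈ S, p.Prime) → ∀ d : ℕ, 0 < d → ∃ (N0 : ℕ) (δ : ℝ), 0 < N0 ∧ 0 < δ ∧
  ∀ N K : ℕ, 0 < N → K ∣ N → (∀ p : ℕ, p.Prime → p ∣ K → p ∈ S) → ∀ α : Ω,
  RepD F Ω γ N K d α → absLogHeight₁ α < δ →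
  ∃ N' : ℕ, (∀ p ∈ S, ¬ p ∣ N') ∧ RepD F Ω γ (N0 * N') N0 d α

/-! ## The last step -/

/-- FRD: heights of numbers of degree at most `d` over `K (μ)`, roots of unity of order prime to
`ℓ`. -/
def T_FRD : Prop := ∀ (K Ω : Type) [Field K] [NumberField K] [Field Ω] [CharZero Ω] [Algebra K Ω]
  [IsAlgClosed Ω] [Algebra.IsAlgebraic K Ω] (ℓ : ℕ), ℓ.Prime → ∀ d : ℕ, 0 < d →
  ∃ c : ℝ, 0 < c ∧ ∀ N' : ℕ, ¬ ℓ ∣ N' → ∀ β : Ω, β ≠ 0 →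
  Cj K Ω (IntermediateField.adjoin K {z : Ω | z ^ N' = 1}) d β →
  (∀ n : ℕ, 0 < n → β ^ n ≠ 1) → c ≤ absLogHeight₁ β

/-- LVC: the level fields are cyclotomic over the bottom level field. -/
def T_LVC : Prop := ∀ (F Ω : Type) [Field F] [NumberField F] [Field Ω] [CharZero Ω] [Algebra F Ω]
  [IsAlgClosed Ω] [Algebra.IsAlgebraic F Ω] (r : ℕ) (γ : Fin r → F), (∀ i, γ i ≠ 0) →
  ∀ (ℓ N0 N' : ℕ), ℓ.Prime → 0 < N0 → ¬ ℓ ∣ N' → ∃ N'' : ℕ, ¬ ℓ ∣ N'' ∧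
  ∀ (d : ℕ) (β : Ω), Cj F Ω (Lv F Ω γ (N0 * N') N0) d β →
    Cj (Lv F Ω γ N0 N0) Ω (IntermediateField.adjoin (Lv F Ω γ N0 N0) {z : Ω | z ^ N'' = 1}) d β

/-- FIND: the last step. -/
def T_FIND : Prop := ∀ (F Ω : Type) [Field F] [NumberField F] [Field Ω] [CharZero Ω] [Algebra F Ω]
  [IsAlgClosed Ω] [Algebra.IsAlgebraic F Ω] (r : ℕ) (γ : Fin r → F), MInd F γ →
  ∀ (ℓ N0 d : ℕ), ℓ.Prime → 0 < N0 → 0 < d → ∃ c : ℝ, 0 < c ∧ ∀ N' : ℕ, ¬ ℓ ∣ N' →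
  ∀ α : Ω, RepD F Ω γ (N0 * N') N0 d α → α ∉ Dv F Ω γ → c ≤ absLogHeight₁ α

/-- RED: a power of a number with at most `d` conjugates is reduced over some larger level. -/
def T_RED : Prop := ∀ (F Ω : Type) [Field F] [NumberField F] [Field Ω] [CharZero Ω] [Algebra F Ω]
  [IsAlgClosed Ω] [Algebra.IsAlgebraic F Ω] (r : ℕ) (γ : Fin r → F), (∀ i, γ i ≠ 0) →
  ∀ N K d : ℕ, 0 < N → K ∣ N → 0 < d → ∀ β : Ω, β ≠ 0 → Cj F Ω (Lv F Ω γ N K) d β →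
  ∃ N₁ : ℕ, 0 < N₁ ∧ K ∣ N₁ ∧ Cj F Ω (Lv F Ω γ N₁ K) d (β ^ d.factorial) ∧
    Red F Ω (Lv F Ω γ N₁ K) (β ^ d.factorial)

/-- MBD: the theorem for independent generators. -/
def T_MBD : Prop := ∀ (F Ω : Type) [Field F] [NumberField F] [Field Ω] [CharZero Ω] [Algebra F Ω]
  [IsAlgClosed Ω] [Algebra.IsAlgebraic F Ω] (r : ℕ) (γ : Fin r → F), MInd F γ →
  ∀ S : Finset ℕ, (∀ p ∈ S, p.Prime) → S.Nonempty → ∀ d : ℕ, 0 < d → ∃ c : ℝ, 0 < c ∧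
  ∀ N K : ℕ, 0 < N → K ∣ N → (∀ p : ℕ, p.Prime → p ∣ K → p ∈ S) → ∀ β g : Ω, β ≠ 0 →
  Cj F Ω (Lv F Ω γ N K) d β → g ∈ Dv F Ω γ → β * g ∉ Dv F Ω γ → c ≤ absLogHeight₁ (β * g)

/-- CFS: finitely many elements of the big field lie in a level field. -/
def T_CFS : Prop := ∀ (Γ : Subgroup (AlgebraicClosure ℚ)ˣ) (S S' : Finset ℕ),
  (∀ p ∈ S, p.Prime → p ∈ S') →
  ∀ (F' : IntermediateField ℚ (AlgebraicClosure ℚ)) [NumberField F'] (r : ℕ)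
  (g : Fin r → (AlgebraicClosure ℚ)ˣ) (γ : Fin r → F'),
  (∀ i, ((γ i : F') : AlgebraicClosure ℚ) = g i) →
  (∀ a ∈ Γ, ∃ (x : Fin r → ℤ) (ξ : (AlgebraicClosure ℚ)ˣ) (j : ℕ), 0 < j ∧ ξ ^ j = 1 ∧
      a = ξ * ∏ i, g i ^ x i) →
  ∀ s : Finset (AlgebraicClosure ℚ), (∀ z ∈ s, z ∈ IntermediateField.adjoin ℚ
      ({z : AlgebraicClosure ℚ | ∃ n : ℕ, 0 < n ∧ z ^ n = 1} ∪
        {z | ∃ n : ℕ, 0 < n ∧ (∀ p : ℕ, p.Prime → p ∣ n → p ∈ S) ∧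
          ∃ g ∈ Γ, z ^ n = (g : AlgebraicClosure ℚ)})) →
  ∃ N K : ℕ, 0 < N ∧ K ∣ N ∧ (∀ p : ℕ, p.Prime → p ∣ K → p ∈ S') ∧
    ∀ z ∈ s, z ∈ Lv F' (AlgebraicClosure ℚ) γ N K

/-- MAIND: the result. -/
def T_MAIND : Prop := ∀ (Γ : Subgroup (AlgebraicClosure ℚ)ˣ), Γ.FG → ∀ (S : Finset ℕ) (D : ℕ),
  ∃ c : ℝ, 0 < c ∧ ∀ L : IntermediateField ℚ (AlgebraicClosure ℚ),
  L = IntermediateField.adjoin ℚ
      ({z : AlgebraicClosure ℚ | ∃ n : ℕ, 0 < n ∧ z ^ n = 1} ∪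
        {z | ∃ n : ℕ, 0 < n ∧ (∀ p : ℕ, p.Prime → p ∣ n → p ∈ S) ∧
          ∃ g ∈ Γ, z ^ n = (g : AlgebraicClosure ℚ)}) →
  ∀ β : AlgebraicClosure ℚ, Module.finrank L (IntermediateField.adjoin L {β}) ≤ D →
  ∀ γ : AlgebraicClosure ℚ, (∃ n : ℕ, 0 < n ∧ ∃ g ∈ Γ, γ ^ n = (g : AlgebraicClosure ℚ)) →
  β * γ ≠ 0 → (¬ ∃ n : ℕ, 0 < n ∧ ∃ g ∈ Γ, (β * γ) ^ n = (g : AlgebraicClosure ℚ)) →
  c ≤ absLogHeight₁ (β * γ)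

end Pool.Agent.H23.RDD
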